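import Pool.Agent.TD7.BZ
import Pool.Agent.TD7.DZ

set_option autoImplicit false

namespace Pool.Agent.Results.MP_93bddd_co.HypergraphBound

open Finset Pool.Agent.TD5 Pool.Agent.TD6 Pool.Agent.TD7

/-- Let `H` be a connected hypergraph (edges `e i`, repeated edges allowed) with `n` vertices and
`m` edges, all of size four, which is neither a double triangle (three edges, six vertices, no
vertex in all edges) nor the complement of the Fano plane (seven edges, seven vertices, no two
vertices meeting all edges).  Then `H` has a transversal `D` with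
`78 |D| ≤ 18 n + 14 m + min(n, m)`. -/
theorem result :
    ∀ (ι V : Type) [Fintype ι] [Fintype V] (e : ι → Finset V),
      (∀ i, (e i).card = 4) →
      (∀ S : Set ι, S.Nonempty → Sᶜ.Nonempty → ∃ i ∈ S, ∃ j ∈ Sᶜ, ∃ x, x ∈ e i ∧ x ∈ e j) →
      ¬ (Fintype.card ι = 3 ∧ Fintype.card V = 6 ∧ ∀ x : V, ∃ i, x ∉ e i) →
      ¬ (Fintype.card ι = 7 ∧ Fintype.card V = 7 ∧ ∀ x y : V, ∃ i, x ∉ e i ∧ y ∉ e i) →
      ∃ D : Finset V, (∀ i, ∃ x ∈ D, x ∈ e i) ∧
        78 * D.card ≤ 18 * Fintype.card V + 14 * Fintype.card ι +
          min (Fintype.card V) (Fintype.card ι) := by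
  intro ι V _ _ e h4 hconn h3 h7
  classical
  have hs : Sz e := sz_of h4
  obtain ⟨D, hD, hDc⟩ := tau_spec (e := e) hs.hne (univ : Finset ι)
  refine ⟨D, fun i => hD i (mem_univ i), ?_⟩
  rw [hDc]
  have hc : (cols e (univ : Finset ι)).card ≤ Fintype.card V := card_le_univ _
  have hm : (univ : Finset ι).card = Fintype.card ι := card_univ
  by_cases hne : (univ : Finset ι) = ∅
  · rw [hne, tau_empty]
    omega
  have hcomp : IsComp e (univ : Finset ι) univ := by
    refine ⟨Subset.refl _, nonempty_iff_ne_empty.2 hne, by rw [sdiff_self]; exact sep_empty _, ?_⟩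
    intro X _ hX hXne hsep
    obtain ⟨i, hi, j, hj, x, hxi, hxj⟩ := hconn (X : Set ι) (by exact_mod_cast hX) (by
      obtain ⟨j, hj⟩ : ∃ j, j ∉ X := by
        by_contra hcon
        push Not at hcon
        exact hXne (eq_univ_of_forall hcon)
      exact ⟨j, by simpa using hj⟩)
    have hj' : j ∈ univ \ X := by
      rw [mem_sdiff]
      exact ⟨mem_univ _, by simpa using hj⟩
    exact disjoint_left.1 (sep_iff.1 hsep i (by simpa using hi) j hj') hxi hxj
  have b1 := bound e (univ : Finset ι) hs
  have b2 := boundF h4 (univ : Finset ι)
  rw [ks_self hcomp] at b1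
  rw [kf_self hcomp] at b2
  have hws : ws e (univ : Finset ι) = 5 * Fintype.card ι := by
    unfold ws
    rw [sum_congr rfl (fun i _ => wt_four (h4 i)), sum_const, smul_eq_mul, mul_comm, hm]
  unfold psi at b1
  unfold phi at b2
  rw [hws] at b1
  rw [hm] at b2
  rcases le_or_gt (Fintype.card ι) (Fintype.card V) with hle | hlt
  · rw [min_eq_right hle]
    have hsp : 26 * tau e (univ : Finset ι) ≤ 5 * Fintype.card ι + 6 * Fintype.card V := by
      by_cases hS : Special e (univ : Finset ι)
      · by_cases hcV : (cols e (univ : Finset ι)).card = Fintype.card V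
        · exfalso
          rcases hS.2 with ⟨k1, k2, k3⟩ | ⟨k1, k2, k3⟩
          · apply h3
            refine ⟨by rw [← hm, k1], by rw [← hcV, k2], ?_⟩
            intro x
            by_contra hcon
            push Not at hcon
            have := tau_le_one (e := e) (W := (univ : Finset ι)) x (fun i _ => hcon i)
            omega
          · apply h7
            refine ⟨by rw [← hm, k1], by rw [← hcV, k2], ?_⟩
            intro x y
            by_contra hcon
            push Not at hcon
            have hh : Hits e {x, y} (univ : Finset ι) := by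
              intro i _
              by_cases hx : x ∈ e i
              · exact ⟨x, by simp, hx⟩
              · exact ⟨y, by simp, hcon i hx⟩
            have h1 := tau_le hh
            have h2 := card_le_two (a := x) (b := y)
            omega
        · have := sp_le (e := e) (univ : Finset ι)
          omega
      · rw [sp_of_not hS] at b1
        omega
    omega
  · rw [min_eq_left hlt.le]
    by_cases hF : FC e (univ : Finset ι)
    · have h1 := hF.1
      have h2 := hF.2.1
      omega
    · rw [fsp_of_not hF] at b2
      omega

end Pool.Agent.Results.MP_93bddd_co.HypergraphBound
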