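import Pool.Agent.TD4.Hyp

set_option autoImplicit false

namespace Pool.Agent.Results.MP_93bddd_co.NoSingleMeet

/-- Three edges of size four, any two of which share exactly two vertices, with no vertex in
all three. -/
def Doubled {ι V : Type} [DecidableEq V] (e : ι → Finset V) (a b c : ι) : Prop :=
  (e a).card = 4 ∧ (e b).card = 4 ∧ (e c).card = 4 ∧ (e a ∩ e b).card = 2 ∧
    (e a ∩ e c).card = 2 ∧ (e b ∩ e c).card = 2 ∧ e a ∩ e b ∩ e c = ∅

/-- A hypergraph whose edges have size at least four and in which no two edges meet in exactly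
one vertex has a transversal `D` and a family `T` of pairwise disjoint doubled triangles with
`5 |D| ≤ |V| + |E| + |T|`. -/
theorem result :
    ∀ (V ι : Type) [Fintype V] [DecidableEq V] [Fintype ι] [DecidableEq ι]
      (e : ι → Finset V), (∀ i, 4 ≤ (e i).card) →
      (∀ i j, i ≠ j → (e i ∩ e j).card ≠ 1) →
      ∃ (D : Finset V) (T : Finset (Finset ι)), (∀ i, (e i ∩ D).Nonempty) ∧
        (∀ F ∈ T, ∃ a b c, F = {a, b, c} ∧ Doubled e a b c) ∧
        (∀ F ∈ T, ∀ F' ∈ T, F ≠ F' → ∀ i ∈ F, ∀ j ∈ F', Disjoint (e i) (e j)) ∧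
        5 * D.card ≤ Fintype.card V + Fintype.card ι + T.card := by
  intro V ι _ _ _ _ e h4 hP
  exact TD4.Hyp.main h4 hP

end Pool.Agent.Results.MP_93bddd_co.NoSingleMeet
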