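import Pool.Agent.TD4.Main

set_option autoImplicit false

namespace Pool.Agent.Results.MP_93bddd_co.NoUniqueCommonNbr

/-- Three vertices of degree four such that any two of them have exactly two common neighbours
and no vertex is adjacent to all three. -/
def DoubleTriangle {V : Type} (G : SimpleGraph V) (a b c : V) : Prop :=
  (G.neighborSet a).ncard = 4 ∧ (G.neighborSet b).ncard = 4 ∧ (G.neighborSet c).ncard = 4 ∧
    (G.commonNeighbors a b).ncard = 2 ∧ (G.commonNeighbors a c).ncard = 2 ∧
    (G.commonNeighbors b c).ncard = 2 ∧ ¬ ∃ x, G.Adj a x ∧ G.Adj b x ∧ G.Adj c x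

/-- Let `G` be a connected graph of minimum degree at least four in which no two vertices have
exactly one common neighbour, and let `G` not be the bipartite complement of the Heawood graph.
Then `5 |D| ≤ 2 n + |T|` for some total dominating set `D` and some family `T` of double
triangles, no two of which have adjacent-to-both vertices, each of them at distance at most two
from a vertex of degree greater than four. -/
theorem result :
    ∀ (V : Type) [Fintype V] (G : SimpleGraph V) [DecidableRel G.Adj],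
      G.Connected →
      (∀ v : V, 4 ≤ G.degree v) →
      (∀ u w : V, u ≠ w → (G.commonNeighbors u w).ncard ≠ 1) →
      ¬ Nonempty (G ≃g SimpleGraph.fromRel
          (fun a b : ZMod 7 ⊕ ZMod 7 =>
            ∃ i j : ZMod 7, a = Sum.inl i ∧ b = Sum.inr j ∧
              i - j ≠ 0 ∧ i - j ≠ 1 ∧ i - j ≠ 3)) →
      ∃ (D : Finset V) (T : Finset (Finset V)), (∀ v : V, ∃ u ∈ D, G.Adj v u) ∧
        (∀ F ∈ T, ∃ a b c : V, (∀ x, x ∈ F ↔ x = a ∨ x = b ∨ x = c) ∧ DoubleTriangle G a b c) ∧
        (∀ F ∈ T, ∃ u ∈ F, ∃ x : V, G.dist u x ≤ 2 ∧ 4 < G.degree x) ∧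
        (∀ F ∈ T, ∀ F' ∈ T, F ≠ F' → ∀ u ∈ F, ∀ u' ∈ F', ∀ x, ¬ (G.Adj u x ∧ G.Adj u' x)) ∧
        5 * D.card ≤ 2 * Fintype.card V + T.card := by
  intro V _ G _ hG hdeg hP hiso
  classical
  have hNU : TD4.NoUnique G := by
    intro u w huw x hux hwx
    by_contra hcon
    push Not at hcon
    apply hP u w huw
    rw [Set.ncard_eq_one]
    refine ⟨x, ?_⟩
    ext y
    rw [SimpleGraph.mem_commonNeighbors, Set.mem_singleton_iff]
    constructor
    · rintro ⟨h1, h2⟩
      by_contra hne
      exact hcon y hne h1 h2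
    · rintro rfl
      exact ⟨hux, hwx⟩
  rcases TD4.main_u hG hdeg hNU with h | ⟨D, T, h1, h2, h3, h4⟩
  · exact absurd h hiso
  · refine ⟨D, T, h1, ?_, fun F hF => (h2 F hF).2, h3, h4⟩
    intro F hF
    obtain ⟨⟨a, b, c, hF', h5⟩, -⟩ := h2 F hF
    refine ⟨a, b, c, ?_, h5⟩
    intro x
    rw [hF']
    simp

end Pool.Agent.Results.MP_93bddd_co.NoUniqueCommonNbr
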