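import Pool.Agent.TD7.EZ

set_option autoImplicit false

namespace Pool.Agent.Results.MP_93bddd_co.UniformBound

/-- Every connected graph on `n` vertices with minimum degree at least four, other than the
bipartite complement of the Heawood graph, has a total dominating set of size at most
`11 n / 26`. -/
theorem result :
    ∀ (V : Type) [Fintype V] (G : SimpleGraph V) [DecidableRel G.Adj],
      G.Connected →
      (∀ v : V, 4 ≤ G.degree v) →
      ¬ Nonempty (G ≃g SimpleGraph.fromRel
          (fun a b : ZMod 7 ⊕ ZMod 7 =>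
            ∃ i j : ZMod 7, a = Sum.inl i ∧ b = Sum.inr j ∧
              i - j ≠ 0 ∧ i - j ≠ 1 ∧ i - j ≠ 3)) →
      ∃ D : Finset V, (∀ v : V, ∃ u ∈ D, G.Adj v u) ∧ 26 * D.card ≤ 11 * Fintype.card V := by
  intro V _ G _ hG hdeg hiso
  classical
  exact TD7.graph_main hG hdeg hiso

end Pool.Agent.Results.MP_93bddd_co.UniformBound
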